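import Mathlib

set_option autoImplicit false

namespace Pool.Agent.Results.MP_3d9d8b_co.AlgebraicHosts

open Finset MvPolynomial

/-- `L` is a Latin square of order `d`. -/
def IsLatin {d : ℕ} (L : Fin d → Fin d → Fin d) : Prop :=
  (∀ i, Function.Injective (L i)) ∧ ∀ j, Function.Injective fun i => L i j

/-- The 3-graph with edge set `E` contains a copy of `H_L`. -/
def HasCopy {V : Type} [DecidableEq V] {d : ℕ} (L : Fin d → Fin d → Fin d)
    (E : Finset (Finset V)) : Prop :=
  ∃ f : Fin d ⊕ Fin d ⊕ Fin d → V, Function.Injective f ∧ ∀ i j : Fin d,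
    ({f (Sum.inl i), f (Sum.inr (Sum.inl j)), f (Sum.inr (Sum.inr (L i j)))} : Finset V) ∈ E

/-- The degree of `f` in the block `b` of variables: the largest number of factors `X (b, j)`,
counted with multiplicity, in a monomial of `f`. -/
def blockDeg {F : Type} [Field F] {m : ℕ} (b : Fin 3) (f : MvPolynomial (Fin 3 × Fin m) F) : ℕ :=
  f.support.sup fun s => ∑ j, s (b, j)

/-- The common zeros of the polynomials `f i` in `F^m × F^m × F^m`. -/
noncomputable def zeros {F : Type} [Field F] [Fintype F] [DecidableEq F] {m k : ℕ}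
    (f : Fin k → MvPolynomial (Fin 3 × Fin m) F) : Finset (Fin 3 → Fin m → F) :=
  Finset.univ.filter fun v => ∀ i, eval (fun p => v p.1 p.2) (f i) = 0

/-- The 3-partite 3-graph on three copies of `F^m` cut out by the polynomials `f i`. -/
noncomputable def host {F : Type} [Field F] [Fintype F] [DecidableEq F] {m k : ℕ}
    (f : Fin k → MvPolynomial (Fin 3 × Fin m) F) : Finset (Finset (Fin 3 × (Fin m → F))) :=
  (zeros f).image fun v => {(0, v 0), (1, v 1), (2, v 2)}

section core

variable {F : Type} [Field F] [Fintype F] [DecidableEq F]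

theorem another {σ ι : Type} [Fintype σ] [DecidableEq σ] [Fintype ι]
    (g : ι → MvPolynomial σ F) (x0 : σ → F) (h0 : ∀ i, eval x0 (g i) = 0)
    (R : Finset (σ → F)) (hdeg : ∑ i, (g i).totalDegree + R.card ≤ Fintype.card σ) :
    ∃ x, (∀ i, eval x (g i) = 0) ∧ x ∉ R := by
  classical
  by_contra hcon
  push Not at hcon
  have hx0 : x0 ∈ R := hcon x0 h0
  have hc : ∀ r : {r // r ∈ R.erase x0}, ∃ c : σ, r.1 c ≠ x0 c := by
    intro r
    by_contra h
    push Not at h
    exact (Finset.mem_erase.mp r.2).1 (funext h)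
  choose c hc using hc
  obtain ⟨p, hp⟩ := CharP.exists F
  have hpp : p.Prime := by
    rcases CharP.char_is_prime_or_zero F p with h | h
    · exact h
    · subst h
      have := CharP.charP_to_charZero F
      exact absurd (Finite.of_fintype F) (not_finite_iff_infinite.mpr (Infinite.of_injective _ (Nat.cast_injective (R := F))))
  let G : ι ⊕ {r // r ∈ R.erase x0} → MvPolynomial σ F :=
    Sum.elim g (fun r => X (c r) - C (x0 (c r)))
  have hG : (∑ i, (G i).totalDegree) < Fintype.card σ := by
    have h1 : (∑ i, (G i).totalDegree) =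
        ∑ i, (g i).totalDegree + ∑ r : {r // r ∈ R.erase x0}, (X (c r) - C (x0 (c r)) :
          MvPolynomial σ F).totalDegree := by
      rw [Fintype.sum_sum_type]
      rfl
    have h2 : ∑ r : {r // r ∈ R.erase x0}, (X (c r) - C (x0 (c r)) :
          MvPolynomial σ F).totalDegree ≤ R.card - 1 := by
      calc _ ≤ ∑ r : {r // r ∈ R.erase x0}, 1 := by
            refine Finset.sum_le_sum fun r _ => ?_
            refine (totalDegree_sub _ _).trans ?_
            rw [totalDegree_X, totalDegree_C]
            simp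
        _ = R.card - 1 := by
            simp [Finset.card_erase_of_mem hx0]
    have h3 : 0 < R.card := Finset.card_pos.mpr ⟨x0, hx0⟩
    omega
  have hdiv := char_dvd_card_solutions_of_fintype_sum_lt p hG
  have hone : Fintype.card { x : σ → F // ∀ i, eval x (G i) = 0 } = 1 := by
    rw [Fintype.card_eq_one_iff]
    refine ⟨⟨x0, ?_⟩, ?_⟩
    · rintro (i | r)
      · exact h0 i
      · simp [G]
    · rintro ⟨x, hx⟩
      apply Subtype.ext
      show x = x0
      by_contra hne
      have hxR : x ∈ R := hcon x fun i => hx (Sum.inl i)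
      have hxe : x ∈ R.erase x0 := Finset.mem_erase.mpr ⟨hne, hxR⟩
      have h4 := hx (Sum.inr ⟨x, hxe⟩)
      have h5 : x (c ⟨x, hxe⟩) - x0 (c ⟨x, hxe⟩) = 0 := by simpa [G] using h4
      exact hc ⟨x, hxe⟩ (sub_eq_zero.mp h5)
  rw [hone] at hdiv
  exact hpp.one_lt.ne' (Nat.dvd_one.mp hdiv)

/-- Specialise all variables outside the block `b`. -/
noncomputable def spec {m : ℕ} (b : Fin 3) (v : Fin 3 → Fin m → F)
    (f : MvPolynomial (Fin 3 × Fin m) F) : MvPolynomial (Fin m) F :=
  eval₂ C (fun p => if p.1 = b then X p.2 else C (v p.1 p.2)) f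

omit [Fintype F] [DecidableEq F] in
theorem eval_spec {m : ℕ} (b : Fin 3) (v : Fin 3 → Fin m → F)
    (f : MvPolynomial (Fin 3 × Fin m) F) (x : Fin m → F) :
    eval x (spec b v f) = eval (fun p => Function.update v b x p.1 p.2) f := by
  unfold spec
  rw [eval₂_eq', map_sum, eval_eq']
  refine Finset.sum_congr rfl fun s _ => ?_
  rw [map_mul, eval_C, map_prod]
  congr 1
  refine Finset.prod_congr rfl fun p _ => ?_
  rw [map_pow]
  congr 1
  by_cases h : p.1 = b
  · rw [if_pos h, eval_X, h, Function.update_self]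
  · rw [if_neg h, eval_C, Function.update_of_ne h]

omit [Fintype F] [DecidableEq F] in
theorem totalDegree_spec {m : ℕ} (b : Fin 3) (v : Fin 3 → Fin m → F)
    (f : MvPolynomial (Fin 3 × Fin m) F) : (spec b v f).totalDegree ≤ blockDeg b f := by
  unfold spec blockDeg
  rw [eval₂_eq']
  refine (totalDegree_finsetSum _ _).trans ?_
  refine Finset.sup_mono_fun fun s _ => ?_
  refine (totalDegree_mul _ _).trans ?_
  rw [totalDegree_C, zero_add]
  refine (totalDegree_finsetProd _ _).trans ?_
  have h1 : ∀ p : Fin 3 × Fin m, ((if p.1 = b then X p.2 else C (v p.1 p.2) :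
      MvPolynomial (Fin m) F) ^ s p).totalDegree ≤ if p.1 = b then s p else 0 := by
    intro p
    refine (totalDegree_pow _ _).trans ?_
    by_cases h : p.1 = b
    · rw [if_pos h, if_pos h, totalDegree_X, mul_one]
    · rw [if_neg h, if_neg h, totalDegree_C, mul_zero]
  refine (Finset.sum_le_sum fun p _ => h1 p).trans ?_
  rw [Fintype.sum_prod_type]
  rw [Finset.sum_eq_single b]
  · simp
  · intro b' _ hb
    simp [hb]
  · simp

theorem fibre {m k d D : ℕ} (f : Fin k → MvPolynomial (Fin 3 × Fin m) F)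
    (b : Fin 3) (hf : ∑ i, blockDeg b (f i) ≤ D) (hm : d * D + d ≤ m + 1)
    (v : Fin d → Fin 3 → Fin m → F) (w0 : Fin m → F)
    (h0 : ∀ j, Function.update (v j) b w0 ∈ zeros f) :
    d ≤ (Finset.univ.filter fun w : Fin m → F =>
      ∀ j, Function.update (v j) b w ∈ zeros f).card := by
  classical
  by_contra hlt
  push Not at hlt
  obtain ⟨x, hx, hxR⟩ := another
    (fun p : Fin d × Fin k => spec b (v p.1) (f p.2)) w0
    (by
      rintro ⟨j, i⟩
      rw [eval_spec]
      exact (Finset.mem_filter.mp (h0 j)).2 i)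
    (Finset.univ.filter fun w : Fin m → F => ∀ j, Function.update (v j) b w ∈ zeros f)
    (by
      have h1 : ∑ p : Fin d × Fin k, (spec b (v p.1) (f p.2)).totalDegree ≤ d * D := by
        calc _ ≤ ∑ p : Fin d × Fin k, blockDeg b (f p.2) :=
              Finset.sum_le_sum fun p _ => totalDegree_spec b (v p.1) (f p.2)
          _ = d * ∑ i, blockDeg b (f i) := by
              rw [Fintype.sum_prod_type]
              simp
          _ ≤ d * D := Nat.mul_le_mul_left _ hf
      rw [Fintype.card_fin]
      omega)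
  apply hxR
  rw [Finset.mem_filter]
  refine ⟨Finset.mem_univ _, fun j => ?_⟩
  unfold zeros
  rw [Finset.mem_filter]
  refine ⟨Finset.mem_univ _, fun i => ?_⟩
  rw [← eval_spec]
  exact hx (j, i)

theorem choose_inj {α : Type} [DecidableEq α] {d : ℕ} (A : Fin d → Finset α)
    (hA : ∀ i, d ≤ (A i).card) : ∃ x : Fin d → α, Function.Injective x ∧ ∀ i, x i ∈ A i := by
  rw [← Finset.all_card_le_biUnion_card_iff_exists_injective]
  intro s
  rcases s.eq_empty_or_nonempty with rfl | ⟨i, hi⟩
  · simp
  · calc s.card ≤ d := by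
          have := Finset.card_le_univ s
          rwa [Fintype.card_fin] at this
      _ ≤ (A i).card := hA i
      _ ≤ (s.biUnion A).card := Finset.card_le_card (Finset.subset_biUnion_of_mem A hi)

theorem has_copy {m k d D : ℕ} (f : Fin k → MvPolynomial (Fin 3 × Fin m) F)
    (hf : ∀ b, ∑ i, blockDeg b (f i) ≤ D) (hm : d * D + d ≤ m + 1)
    (hne : (zeros f).Nonempty) (L : Fin d → Fin d → Fin d) (hL : IsLatin L) :
    HasCopy L (host f) := by
  classical
  obtain ⟨v0, hv0⟩ := hne
  have e0 : (![v0 0, v0 1, v0 2] : Fin 3 → Fin m → F) = v0 := by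
    funext b
    fin_cases b <;> rfl
  have u0 : ∀ x x' y z : Fin m → F,
      Function.update (![x, y, z] : Fin 3 → Fin m → F) 0 x' = ![x', y, z] := by
    intro x x' y z
    funext b
    fin_cases b <;> simp
  have u1 : ∀ x y y' z : Fin m → F,
      Function.update (![x, y, z] : Fin 3 → Fin m → F) 1 y' = ![x, y', z] := by
    intro x y y' z
    funext b
    fin_cases b <;> simp
  have u2 : ∀ x y z z' : Fin m → F,
      Function.update (![x, y, z] : Fin 3 → Fin m → F) 2 z' = ![x, y, z'] := by
    intro x y z z'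
    funext b
    fin_cases b <;> simp
  -- the rows
  obtain ⟨x, hxinj, hx⟩ := choose_inj (d := d) (fun _ => Finset.univ.filter fun w : Fin m → F =>
      ∀ _ : Fin d, Function.update (![v0 0, v0 1, v0 2] : Fin 3 → Fin m → F) 0 w ∈ zeros f)
    (fun i => fibre f 0 (hf 0) hm (fun _ => ![v0 0, v0 1, v0 2]) (v0 0) (by
      intro j
      rw [u0, e0]
      exact hv0))
  have hx' : ∀ i : Fin d, (![x i, v0 1, v0 2] : Fin 3 → Fin m → F) ∈ zeros f := by
    intro i
    have := (Finset.mem_filter.mp (hx i)).2 i
    rwa [u0] at this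
  -- the columns
  obtain ⟨y, hyinj, hy⟩ := choose_inj (d := d) (fun _ => Finset.univ.filter fun w : Fin m → F =>
      ∀ i : Fin d, Function.update (![x i, v0 1, v0 2] : Fin 3 → Fin m → F) 1 w ∈ zeros f)
    (fun j => fibre f 1 (hf 1) hm (fun i => ![x i, v0 1, v0 2]) (v0 1) (by
      intro i
      rw [u1]
      exact hx' i))
  have hy' : ∀ i j : Fin d, (![x i, y j, v0 2] : Fin 3 → Fin m → F) ∈ zeros f := by
    intro i j
    have := (Finset.mem_filter.mp (hy j)).2 i
    rwa [u1] at this
  -- the symbols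
  have hbij : ∀ i, Function.Bijective (L i) := fun i =>
    Finite.injective_iff_bijective.mp (hL.1 i)
  let τ : Fin d → Fin d → Fin d := fun i => (Equiv.ofBijective (L i) (hbij i)).symm
  have hτ : ∀ i j, τ i (L i j) = j := fun i j =>
    (Equiv.ofBijective (L i) (hbij i)).symm_apply_apply j
  obtain ⟨z, hzinj, hz⟩ := choose_inj (d := d) (fun s => Finset.univ.filter fun w : Fin m → F =>
      ∀ i : Fin d, Function.update (![x i, y (τ i s), v0 2] : Fin 3 → Fin m → F) 2 w ∈ zeros f)
    (fun s => fibre f 2 (hf 2) hm (fun i => ![x i, y (τ i s), v0 2]) (v0 2) (by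
      intro i
      rw [u2]
      exact hy' i (τ i s)))
  have hz' : ∀ i j : Fin d, (![x i, y j, z (L i j)] : Fin 3 → Fin m → F) ∈ zeros f := by
    intro i j
    have := (Finset.mem_filter.mp (hz (L i j))).2 i
    rwa [u2, hτ] at this
  refine ⟨Sum.elim (fun i => (0, x i)) (Sum.elim (fun j => (1, y j)) (fun s => (2, z s))),
    ?_, ?_⟩
  · rintro (i | j | s) (i' | j' | s') h
    · simp only [Sum.elim_inl, Prod.mk.injEq, true_and] at h
      rw [hxinj h]
    · simp at h
    · simp at h
    · simp at h
    · simp only [Sum.elim_inr, Sum.elim_inl, Prod.mk.injEq, true_and] at h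
      rw [hyinj h]
    · simp at h
    · simp at h
    · simp at h
    · simp only [Sum.elim_inr, Prod.mk.injEq, true_and] at h
      rw [hzinj h]
  · intro i j
    unfold host
    rw [Finset.mem_image]
    exact ⟨![x i, y j, z (L i j)], hz' i j, by simp⟩

omit [Fintype F] [DecidableEq F] in
theorem totalDegree_le_blocks {m : ℕ} (f : MvPolynomial (Fin 3 × Fin m) F) :
    f.totalDegree ≤ ∑ b, blockDeg b f := by
  unfold MvPolynomial.totalDegree
  refine Finset.sup_le fun s hs => ?_
  rw [Finsupp.sum_fintype _ _ (fun _ => rfl), Fintype.sum_prod_type]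
  exact Finset.sum_le_sum fun b _ =>
    Finset.le_sup (f := fun s : Fin 3 × Fin m →₀ ℕ => ∑ j, s (b, j)) hs

theorem card_zeros_mul {m k D : ℕ} (f : Fin k → MvPolynomial (Fin 3 × Fin m) F)
    (hf : ∀ b, ∑ i, blockDeg b (f i) ≤ D) (i : Fin k) (hi : f i ≠ 0) :
    (zeros f).card * Fintype.card F ≤ 3 * D * Fintype.card F ^ (3 * m) := by
  classical
  have hq : 0 < Fintype.card F := Fintype.card_pos
  set e : Fin 3 × Fin m ≃ Fin (3 * m) := finProdFinEquiv with he
  have hp : rename e (f i) ≠ 0 := by
    intro h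
    apply hi
    apply rename_injective e e.injective
    rw [h, map_zero]
  have h1 := schwartz_zippel_totalDegree hp (Finset.univ : Finset F)
  have h2 : (rename e (f i)).totalDegree ≤ 3 * D := by
    refine (totalDegree_rename_le _ _).trans ?_
    refine (totalDegree_le_blocks _).trans ?_
    calc ∑ b, blockDeg b (f i) ≤ ∑ _b : Fin 3, D :=
          Finset.sum_le_sum fun b _ =>
            (Finset.single_le_sum (f := fun i => blockDeg b (f i)) (fun _ _ => Nat.zero_le _)
              (Finset.mem_univ i)).trans (hf b)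
      _ = 3 * D := by simp
  have h3 : (zeros f).card ≤ (Finset.filter (fun x => eval x (rename e (f i)) = 0)
      (Fintype.piFinset fun _ => (Finset.univ : Finset F))).card := by
    refine Finset.card_le_card_of_injOn (fun v n => v (e.symm n).1 (e.symm n).2) ?_ ?_
    · intro v hv
      have hv' := (Finset.mem_filter.mp hv).2 i
      rw [Finset.mem_coe, Finset.mem_filter]
      refine ⟨by simp, ?_⟩
      rw [eval_rename]
      have hcomp : ((fun n => v (e.symm n).1 (e.symm n).2) ∘ e) = fun p => v p.1 p.2 := by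
        funext p
        simp
      show eval ((fun n => v (e.symm n).1 (e.symm n).2) ∘ e) (f i) = 0
      rw [hcomp]
      exact hv'
    · intro v _ v' _ h
      funext b j
      have := congrFun h (e (b, j))
      simpa using this
  have h4 : ((Finset.filter (fun x => eval x (rename e (f i)) = 0)
      (Fintype.piFinset fun _ => (Finset.univ : Finset F))).card : ℚ≥0) * Fintype.card F ≤
      (rename e (f i)).totalDegree * (Fintype.card F : ℚ≥0) ^ (3 * m) := by
    have hq' : (0 : ℚ≥0) < Fintype.card F := by exact_mod_cast hq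
    rw [Finset.card_univ, div_le_div_iff₀ (by positivity) hq'] at h1
    exact h1
  have h5 : (Finset.filter (fun x => eval x (rename e (f i)) = 0)
      (Fintype.piFinset fun _ => (Finset.univ : Finset F))).card * Fintype.card F ≤
      (rename e (f i)).totalDegree * Fintype.card F ^ (3 * m) := by
    exact_mod_cast h4
  calc (zeros f).card * Fintype.card F ≤ _ := Nat.mul_le_mul_right _ h3
    _ ≤ _ := h5
    _ ≤ 3 * D * Fintype.card F ^ (3 * m) := Nat.mul_le_mul_right _ h2

theorem card_host_le {m k : ℕ} (f : Fin k → MvPolynomial (Fin 3 × Fin m) F) :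
    (host f).card ≤ (zeros f).card := Finset.card_image_le

end core

theorem numeric {q m c e : ℕ} (hq : 1 ≤ q) (he : 0 < e) (hm : m ≤ e) (N C : ℝ) (hN : 0 ≤ N)
    (h : N * (q : ℝ) ^ c ≤ C * (q : ℝ) ^ (3 * m)) :
    N ≤ C * ((q : ℝ) ^ m) ^ (3 - (c : ℝ) / e) := by
  have hq1 : (1 : ℝ) ≤ q := by exact_mod_cast hq
  have hq0 : (0 : ℝ) < q := by linarith
  have he' : (0 : ℝ) < e := by exact_mod_cast he
  have hC : 0 ≤ C := by
    by_contra hneg
    push Not at hneg
    have h1 : C * (q : ℝ) ^ (3 * m) < 0 := mul_neg_of_neg_of_pos hneg (by positivity)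
    have h2 : 0 ≤ N * (q : ℝ) ^ c := by positivity
    linarith
  have h1 : N ≤ C * (q : ℝ) ^ (((3 * m : ℕ) : ℝ) - c) := by
    rw [Real.rpow_sub hq0, Real.rpow_natCast, Real.rpow_natCast, ← mul_div_assoc,
      le_div_iff₀ (by positivity)]
    exact h
  refine h1.trans (mul_le_mul_of_nonneg_left ?_ hC)
  rw [← Real.rpow_natCast (q : ℝ) m, ← Real.rpow_mul hq0.le]
  apply Real.rpow_le_rpow_of_exponent_le hq1
  have h2 : (m : ℝ) * ((c : ℝ) / e) ≤ c := by
    have hme : (m : ℝ) ≤ e := by exact_mod_cast hm
    rw [← mul_div_assoc, div_le_iff₀ he', mul_comm (m : ℝ)]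
    exact mul_le_mul_of_nonneg_left hme (Nat.cast_nonneg c)
  push_cast
  nlinarith

theorem result : ∀ (F : Type) [Field F] [Fintype F] [DecidableEq F] (d m k D : ℕ)
    (f : Fin k → MvPolynomial (Fin 3 × Fin m) F) (L : Fin d → Fin d → Fin d),
    2 ≤ d → IsLatin L → (∀ b, ∑ i, blockDeg b (f i) ≤ D) → ¬ HasCopy L (host f) →
    (∀ (c : ℕ) (C : ℝ),
      ((host f).card : ℝ) * (Fintype.card F : ℝ) ^ c ≤ C * (Fintype.card F : ℝ) ^ (3 * m) →
      ((host f).card : ℝ) ≤
        C * ((Fintype.card F : ℝ) ^ m) ^ (3 - (c : ℝ) / (((D : ℝ) + 1) * d))) ∧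
    ((∃ i, f i ≠ 0) →
      ((host f).card : ℝ) ≤
        3 * D * ((Fintype.card F : ℝ) ^ m) ^ (3 - 1 / (((D : ℝ) + 1) * d))) := by
  intro F _ _ _ d m k D f L hd hL hf hfree
  have hq : 1 ≤ Fintype.card F := Fintype.card_pos
  have main : ∀ (c : ℕ) (C : ℝ),
      ((host f).card : ℝ) * (Fintype.card F : ℝ) ^ c ≤ C * (Fintype.card F : ℝ) ^ (3 * m) →
      ((host f).card : ℝ) ≤
        C * ((Fintype.card F : ℝ) ^ m) ^ (3 - (c : ℝ) / (((D : ℝ) + 1) * d)) := by
    intro c C h
    by_cases hne : (zeros f).Nonempty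
    · have hm : m ≤ (D + 1) * d := by
        by_contra hlt
        push Not at hlt
        exact hfree (has_copy f hf (by nlinarith) hne L hL)
      have := numeric (c := c) hq (e := (D + 1) * d) (by positivity) hm _ C
        (Nat.cast_nonneg (host f).card) h
      push_cast at this
      exact this
    · have h0 : (host f).card = 0 := by
        rw [Finset.not_nonempty_iff_eq_empty] at hne
        unfold host
        rw [hne]
        simp
      rw [h0] at h ⊢
      have hq0 : (0 : ℝ) < Fintype.card F := by exact_mod_cast hq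
      have hC : 0 ≤ C := by
        by_contra hneg
        push Not at hneg
        have h1 : C * (Fintype.card F : ℝ) ^ (3 * m) < 0 :=
          mul_neg_of_neg_of_pos hneg (by positivity)
        simp at h
        linarith
      simp only [Nat.cast_zero]
      positivity
  refine ⟨main, ?_⟩
  rintro ⟨i, hi⟩
  have h1 := card_zeros_mul f hf i hi
  have h2 : (host f).card * Fintype.card F ≤ 3 * D * Fintype.card F ^ (3 * m) :=
    (Nat.mul_le_mul_right _ (card_host_le f)).trans h1
  have h3 : ((host f).card : ℝ) * (Fintype.card F : ℝ) ^ 1 ≤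
      (3 * D : ℝ) * (Fintype.card F : ℝ) ^ (3 * m) := by
    rw [pow_one]
    exact_mod_cast h2
  have := main 1 (3 * D) h3
  simpa using this

end Pool.Agent.Results.MP_3d9d8b_co.AlgebraicHosts
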