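import Mathlib

set_option autoImplicit false

namespace Pool.Agent.Results.MP_3d9d8b_co.LowerBound

open Finset

/-- `L` is a Latin square of order `d`. -/
def IsLatin {d : ℕ} (L : Fin d → Fin d → Fin d) : Prop :=
  (∀ i, Function.Injective (L i)) ∧ ∀ j, Function.Injective fun i => L i j

/-- The 3-graph with edge set `E` contains a copy of `H_L`. -/
def HasCopy {V : Type} [DecidableEq V] {d : ℕ} (L : Fin d → Fin d → Fin d)
    (E : Finset (Finset V)) : Prop :=
  ∃ f : Fin d ⊕ Fin d ⊕ Fin d → V, Function.Injective f ∧ ∀ i j : Fin d,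
    ({f (Sum.inl i), f (Sum.inr (Sum.inl j)), f (Sum.inr (Sum.inr (L i j)))} : Finset V) ∈ E

/-- The set `Γ` of pairs contains a complete bipartite graph `K_{d,d}`. -/
def HasKdd {V W : Type} (d : ℕ) (Γ : Finset (V × W)) : Prop :=
  ∃ (a : Fin d → V) (b : Fin d → W), Function.Injective a ∧ Function.Injective b ∧
    ∀ i j, (a i, b j) ∈ Γ

section structural

variable {V : Type} [DecidableEq V]

/-- The triples `{a, b, c}` with `(a, b)` in `Γ` and `c` in `C`. -/
def triples (Γ : Finset (V × V)) (C : Finset V) : Finset (Finset V) :=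
  (Γ ×ˢ C).image fun p => {p.1.1, p.1.2, p.2}

theorem mem_triples (Γ : Finset (V × V)) (C : Finset V) (e : Finset V) :
    e ∈ triples Γ C ↔ ∃ a b c, (a, b) ∈ Γ ∧ c ∈ C ∧ e = {a, b, c} := by
  unfold triples
  rw [Finset.mem_image]
  constructor
  · rintro ⟨⟨⟨a, b⟩, c⟩, h, rfl⟩
    rw [Finset.mem_product] at h
    exact ⟨a, b, c, h.1, h.2, rfl⟩
  · rintro ⟨a, b, c, hab, hc, rfl⟩
    exact ⟨((a, b), c), Finset.mem_product.mpr ⟨hab, hc⟩, rfl⟩

theorem no_copy {d : ℕ} (hd : 0 < d) (A B C : Finset V) (hAB : Disjoint A B)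
    (hAC : Disjoint A C) (hBC : Disjoint B C) (Γ : Finset (V × V)) (hΓ : Γ ⊆ A ×ˢ B)
    (hfree : ¬ HasKdd d Γ) (L : Fin d → Fin d → Fin d) (hL : IsLatin L) :
    ¬ HasCopy L (triples Γ C) := by
  classical
  rintro ⟨f, hf, hE⟩
  set χ : V → ℕ := fun v => if v ∈ A then 0 else if v ∈ B then 1 else 2 with hχ
  have hχ3 : ∀ v, χ v < 3 := by
    intro v
    simp only [hχ]
    split_ifs <;> omega
  have hA0 : ∀ v ∈ A, χ v = 0 := by
    intro v hv
    simp [hχ, hv]
  have hB1 : ∀ v ∈ B, χ v = 1 := by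
    intro v hv
    have : v ∉ A := fun h => (Finset.disjoint_left.mp hAB h) hv
    simp [hχ, hv, this]
  have hC2 : ∀ v ∈ C, χ v = 2 := by
    intro v hv
    have h1 : v ∉ A := fun h => (Finset.disjoint_left.mp hAC h) hv
    have h2 : v ∉ B := fun h => (Finset.disjoint_left.mp hBC h) hv
    simp [hχ, h1, h2]
  have hpair : ∀ e ∈ triples Γ C, ∀ u ∈ e, ∀ v ∈ e, (u ≠ v → χ u ≠ χ v) ∧
      (χ u = 0 → χ v = 1 → (u, v) ∈ Γ) := by
    intro e he u hu v hv
    obtain ⟨a, b, c, hab, hc, rfl⟩ := (mem_triples Γ C e).mp he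
    have hab' := Finset.mem_product.mp (hΓ hab)
    have ha := hA0 a hab'.1
    have hb := hB1 b hab'.2
    have hc' := hC2 c hc
    simp only [Finset.mem_insert, Finset.mem_singleton] at hu hv
    rcases hu with rfl | rfl | rfl <;> rcases hv with rfl | rfl | rfl <;>
      simp_all
  have hfin : ∀ U W : Fin d → V, Function.Injective U → Function.Injective W →
      (∀ i j, ∃ e ∈ triples Γ C, U i ∈ e ∧ W j ∈ e) → (∀ i, χ (U i) = 0) →
      (∀ j, χ (W j) = 1) → False := by
    intro U W hU hW hP h0 h1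
    apply hfree
    refine ⟨U, W, hU, hW, fun i j => ?_⟩
    obtain ⟨e, he, hu, hw⟩ := hP i j
    exact (hpair e he _ hu _ hw).2 (h0 i) (h1 j)
  set R : Fin d → V := fun i => f (Sum.inl i) with hR
  set K : Fin d → V := fun j => f (Sum.inr (Sum.inl j)) with hK
  set S : Fin d → V := fun k => f (Sum.inr (Sum.inr k)) with hS
  have hRi : Function.Injective R := fun i j h => by
    have := hf h
    simpa using this
  have hKi : Function.Injective K := fun i j h => by
    have := hf h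
    simpa using this
  have hSi : Function.Injective S := fun i j h => by
    have := hf h
    simpa using this
  have hRKP : ∀ i j, ∃ e ∈ triples Γ C, R i ∈ e ∧ K j ∈ e := fun i j =>
    ⟨_, hE i j, by simp [hR], by simp [hK]⟩
  have hRSP : ∀ i k, ∃ e ∈ triples Γ C, R i ∈ e ∧ S k ∈ e := by
    intro i k
    obtain ⟨j, hj⟩ := (Finite.injective_iff_surjective.mp (hL.1 i)) k
    exact ⟨_, hE i j, by simp [hR], by simp [hS, hj]⟩
  have hKSP : ∀ j k, ∃ e ∈ triples Γ C, K j ∈ e ∧ S k ∈ e := by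
    intro j k
    obtain ⟨i, hi⟩ := (Finite.injective_iff_surjective.mp (hL.2 j)) k
    exact ⟨_, hE i j, by simp [hK], by simp only [hS] at *; rw [← hi]; simp⟩
  have hRK : ∀ i j, χ (R i) ≠ χ (K j) := by
    intro i j
    obtain ⟨e, he, h1, h2⟩ := hRKP i j
    exact (hpair e he _ h1 _ h2).1 (fun h => by have := hf h; simp at this)
  have hRS : ∀ i j, χ (R i) ≠ χ (S j) := by
    intro i j
    obtain ⟨e, he, h1, h2⟩ := hRSP i j
    exact (hpair e he _ h1 _ h2).1 (fun h => by have := hf h; simp at this)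
  have hKS : ∀ i j, χ (K i) ≠ χ (S j) := by
    intro i j
    obtain ⟨e, he, h1, h2⟩ := hKSP i j
    exact (hpair e he _ h1 _ h2).1 (fun h => by have := hf h; simp at this)
  set o : Fin d := ⟨0, hd⟩
  have hcR : ∀ i, χ (R i) = χ (R o) := by
    intro i
    have := hRK i o; have := hRS i o; have := hRK o o; have := hRS o o; have := hKS o o
    have := hχ3 (R i); have := hχ3 (R o); have := hχ3 (K o); have := hχ3 (S o)
    omega
  have hcK : ∀ i, χ (K i) = χ (K o) := by
    intro i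
    have := hRK o i; have := hKS i o; have := hRK o o; have := hRS o o; have := hKS o o
    have := hχ3 (K i); have := hχ3 (R o); have := hχ3 (K o); have := hχ3 (S o)
    omega
  have hcS : ∀ i, χ (S i) = χ (S o) := by
    intro i
    have := hRS o i; have := hKS o i; have := hRK o o; have := hRS o o; have := hKS o o
    have := hχ3 (S i); have := hχ3 (R o); have := hχ3 (K o); have := hχ3 (S o)
    omega
  have hsymm : ∀ U W : Fin d → V, (∀ i j, ∃ e ∈ triples Γ C, U i ∈ e ∧ W j ∈ e) →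
      ∀ i j, ∃ e ∈ triples Γ C, W i ∈ e ∧ U j ∈ e := by
    intro U W h i j
    obtain ⟨e, he, h1, h2⟩ := h j i
    exact ⟨e, he, h2, h1⟩
  have h1 := hRK o o
  have h2 := hRS o o
  have h3 := hKS o o
  have g1 := hχ3 (R o)
  have g2 := hχ3 (K o)
  have g3 := hχ3 (S o)
  have hzero : χ (R o) = 0 ∨ χ (K o) = 0 ∨ χ (S o) = 0 := by omega
  have hone : χ (R o) = 1 ∨ χ (K o) = 1 ∨ χ (S o) = 1 := by omega
  rcases hzero with h0 | h0 | h0 <;> rcases hone with h1' | h1' | h1'
  · omega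
  · exact hfin R K hRi hKi hRKP (fun i => (hcR i).trans h0) (fun i => (hcK i).trans h1')
  · exact hfin R S hRi hSi hRSP (fun i => (hcR i).trans h0) (fun i => (hcS i).trans h1')
  · exact hfin K R hKi hRi (hsymm _ _ hRKP) (fun i => (hcK i).trans h0)
      (fun i => (hcR i).trans h1')
  · omega
  · exact hfin K S hKi hSi hKSP (fun i => (hcK i).trans h0) (fun i => (hcS i).trans h1')
  · exact hfin S R hSi hRi (hsymm _ _ hRSP) (fun i => (hcS i).trans h0)
      (fun i => (hcR i).trans h1')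
  · exact hfin S K hSi hKi (hsymm _ _ hKSP) (fun i => (hcS i).trans h0)
      (fun i => (hcK i).trans h1')
  · omega

theorem card_triples (A B C : Finset V) (hAB : Disjoint A B)
    (hAC : Disjoint A C) (hBC : Disjoint B C) (Γ : Finset (V × V)) (hΓ : Γ ⊆ A ×ˢ B) :
    (triples Γ C).card = Γ.card * C.card ∧ ∀ e ∈ triples Γ C, e.card = 3 := by
  have nAB : ∀ {x}, x ∈ A → x ∈ B → False := fun h h' => Finset.disjoint_left.mp hAB h h'
  have nAC : ∀ {x}, x ∈ A → x ∈ C → False := fun h h' => Finset.disjoint_left.mp hAC h h'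
  have nBC : ∀ {x}, x ∈ B → x ∈ C → False := fun h h' => Finset.disjoint_left.mp hBC h h'
  constructor
  · unfold triples
    rw [Finset.card_image_of_injOn, Finset.card_product]
    rintro ⟨⟨a, b⟩, c⟩ h ⟨⟨a', b'⟩, c'⟩ h' heq
    rw [Finset.mem_coe, Finset.mem_product] at h h'
    have hab := Finset.mem_product.mp (hΓ h.1)
    have hab' := Finset.mem_product.mp (hΓ h'.1)
    have hc := h.2
    have hc' := h'.2
    simp only at hab hab' hc hc' heq
    have ea : a = a' := by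
      have : a ∈ ({a', b', c'} : Finset V) := by rw [← heq]; simp
      simp only [Finset.mem_insert, Finset.mem_singleton] at this
      rcases this with h1 | h1 | h1
      · exact h1
      · exact (nAB hab.1 (h1 ▸ hab'.2)).elim
      · exact (nAC hab.1 (h1 ▸ hc')).elim
    have eb : b = b' := by
      have : b ∈ ({a', b', c'} : Finset V) := by rw [← heq]; simp
      simp only [Finset.mem_insert, Finset.mem_singleton] at this
      rcases this with h1 | h1 | h1
      · exact (nAB (h1 ▸ hab'.1) hab.2).elim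
      · exact h1
      · exact (nBC hab.2 (h1 ▸ hc')).elim
    have ec : c = c' := by
      have : c ∈ ({a', b', c'} : Finset V) := by rw [← heq]; simp
      simp only [Finset.mem_insert, Finset.mem_singleton] at this
      rcases this with h1 | h1 | h1
      · exact (nAC (h1 ▸ hab'.1) hc).elim
      · exact (nBC (h1 ▸ hab'.2) hc).elim
      · exact h1
    rw [ea, eb, ec]
  · intro e he
    obtain ⟨a, b, c, hab, hc, rfl⟩ := (mem_triples Γ C e).mp he
    have hab' := Finset.mem_product.mp (hΓ hab)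
    simp only at hab'
    rw [Finset.card_eq_three]
    refine ⟨a, b, c, ?_, ?_, ?_, rfl⟩
    · rintro rfl; exact nAB hab'.1 hab'.2
    · rintro rfl; exact nAC hab'.1 hc
    · rintro rfl; exact nBC hab'.2 hc

end structural

theorem card_vanish {X : Type} [Fintype X] [DecidableEq X] (q : ℕ) (T : Finset X) :
    (Finset.univ.filter fun g : X → Fin (q + 1) => ∀ x ∈ T, g x = 0).card =
      (q + 1) ^ (Fintype.card X - T.card) := by
  have h1 : (Finset.univ.filter fun g : X → Fin (q + 1) => ∀ x ∈ T, g x = 0) =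
      Fintype.piFinset (fun x => if x ∈ T then ({0} : Finset (Fin (q + 1))) else Finset.univ) := by
    ext g
    simp only [Finset.mem_filter, Finset.mem_univ, true_and, Fintype.mem_piFinset]
    constructor
    · intro h x
      split_ifs with hx
      · simpa using h x hx
      · exact Finset.mem_univ _
    · intro h x hx
      have := h x
      rw [if_pos hx] at this
      simpa using this
  rw [h1, Fintype.card_piFinset]
  have h2 : ∀ x : X, (if x ∈ T then ({0} : Finset (Fin (q + 1))) else Finset.univ).card =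
      if x ∈ T then 1 else (q + 1) := by
    intro x
    split_ifs <;> simp
  rw [Finset.prod_congr rfl fun x _ => h2 x, Finset.prod_ite, Finset.prod_const_one, one_mul,
    Finset.prod_const]
  congr 1
  rw [Finset.filter_not, Finset.card_sdiff_of_subset (Finset.filter_subset _ _)]
  simp

theorem exists_free (m d q : ℕ) (hm : 1 ≤ m) (hd : 2 ≤ d)
    (h : 2 * m ^ (2 * d - 2) ≤ (q + 1) ^ (d ^ 2 - 1)) :
    ∃ Γ : Finset (Fin m × Fin m), ¬ HasKdd d Γ ∧ m ^ 2 ≤ 2 * (q + 1) * Γ.card := by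
  classical
  set Q := q + 1 with hQ
  have hQ1 : 1 ≤ Q := by omega
  set P : Finset ((Fin d → Fin m) × (Fin d → Fin m)) :=
    Finset.univ.filter fun p => Function.Injective p.1 ∧ Function.Injective p.2 with hP
  set Z : (Fin m × Fin m → Fin (q + 1)) → Finset (Fin m × Fin m) :=
    fun g => Finset.univ.filter fun x => g x = 0 with hZ
  set N : (Fin m × Fin m → Fin (q + 1)) → Finset ((Fin d → Fin m) × (Fin d → Fin m)) :=
    fun g => P.filter fun p => ∀ i j, g (p.1 i, p.2 j) = 0 with hN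
  -- the good function
  have key : ∃ g, m ^ 2 + 2 * Q * (N g).card ≤ 2 * Q * (Z g).card := by
    by_contra hcon
    push Not at hcon
    have hs : ∑ g : (Fin m × Fin m → Fin (q + 1)), 2 * Q * (Z g).card <
        ∑ g : (Fin m × Fin m → Fin (q + 1)), (m ^ 2 + 2 * Q * (N g).card) :=
      Finset.sum_lt_sum_of_nonempty Finset.univ_nonempty (fun g _ => hcon g)
    rw [Finset.sum_add_distrib, ← Finset.mul_sum, ← Finset.mul_sum, Finset.sum_const,
      Finset.card_univ, Fintype.card_fun, Fintype.card_prod, Fintype.card_fin,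
      Fintype.card_fin, smul_eq_mul] at hs
    have hZs : ∑ g : (Fin m × Fin m → Fin (q + 1)), (Z g).card = m * m * Q ^ (m * m - 1) := by
      have h1 : ∀ g : (Fin m × Fin m → Fin (q + 1)), (Z g).card =
          ∑ x : Fin m × Fin m, if g x = 0 then 1 else 0 := fun g => by
        rw [hZ]; exact Finset.card_filter _ _
      rw [Finset.sum_congr rfl fun g _ => h1 g, Finset.sum_comm]
      have h2 : ∀ x : Fin m × Fin m, (∑ g : (Fin m × Fin m → Fin (q + 1)),
          if g x = 0 then 1 else 0) = Q ^ (m * m - 1) := by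
        intro x
        rw [← Finset.card_filter]
        have h3 := card_vanish q ({x} : Finset (Fin m × Fin m))
        simp only [Finset.mem_singleton, forall_eq, Fintype.card_prod, Fintype.card_fin,
          Finset.card_singleton] at h3
        exact h3
      rw [Finset.sum_congr rfl fun x _ => h2 x, Finset.sum_const, Finset.card_univ,
        Fintype.card_prod, Fintype.card_fin, smul_eq_mul]
    have hNs : ∑ g : (Fin m × Fin m → Fin (q + 1)), (N g).card ≤
        m ^ (2 * d) * Q ^ (m * m - d ^ 2) := by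
      have h1 : ∀ g : (Fin m × Fin m → Fin (q + 1)), (N g).card =
          ∑ p ∈ P, if (∀ i j, g (p.1 i, p.2 j) = 0) then 1 else 0 := fun g => by
        rw [hN]; exact Finset.card_filter _ _
      rw [Finset.sum_congr rfl fun g _ => h1 g, Finset.sum_comm]
      have h2 : ∀ p ∈ P, (∑ g : (Fin m × Fin m → Fin (q + 1)),
          if (∀ i j, g (p.1 i, p.2 j) = 0) then 1 else 0) = Q ^ (m * m - d ^ 2) := by
        intro p hp
        rw [← Finset.card_filter]
        rw [hP, Finset.mem_filter] at hp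
        have hinj : Function.Injective fun x : Fin d × Fin d => (p.1 x.1, p.2 x.2) := by
          rintro ⟨i, j⟩ ⟨i', j'⟩ h4
          simp only [Prod.mk.injEq] at h4
          rw [hp.2.1 h4.1, hp.2.2 h4.2]
        have h3 := card_vanish q ((Finset.univ : Finset (Fin d × Fin d)).image
          fun x => (p.1 x.1, p.2 x.2))
        rw [Finset.card_image_of_injective _ hinj, Finset.card_univ, Fintype.card_prod,
          Fintype.card_prod, Fintype.card_fin, Fintype.card_fin] at h3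
        rw [sq, ← h3]
        congr 1
        ext g
        simp only [Finset.mem_filter, Finset.mem_univ, true_and, Finset.mem_image,
          Prod.exists, forall_exists_index]
        constructor
        · rintro h5 x i j rfl
          exact h5 i j
        · intro h5 i j
          exact h5 _ i j rfl
      rw [Finset.sum_congr rfl h2, Finset.sum_const, smul_eq_mul]
      apply Nat.mul_le_mul_right
      calc P.card ≤ (Finset.univ : Finset ((Fin d → Fin m) × (Fin d → Fin m))).card :=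
            Finset.card_le_card (Finset.subset_univ _)
        _ = m ^ (2 * d) := by
            rw [Finset.card_univ, Fintype.card_prod, Fintype.card_fun, Fintype.card_fin,
              Fintype.card_fin, two_mul, pow_add]
    rw [hZs] at hs
    -- if d > m then N is empty
    by_cases hdm : d ≤ m
    · have hd2 : d ^ 2 ≤ m * m := by nlinarith
      have e1 : Q ^ (m * m) = Q ^ (m * m - d ^ 2) * Q * Q ^ (d ^ 2 - 1) := by
        rw [mul_assoc, ← pow_succ', ← pow_add]
        congr 1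
        have : 1 ≤ d ^ 2 := Nat.one_le_pow _ _ (by omega)
        omega
      have e2 : Q * Q ^ (m * m - 1) = Q ^ (m * m) := by
        rw [← pow_succ']
        congr 1
        have : 1 ≤ m * m := Nat.one_le_iff_ne_zero.mpr (by positivity)
        omega
      have e3 : m ^ (2 * d) = m ^ (2 * d - 2) * m ^ 2 := by
        rw [← pow_add]; congr 1; omega
      set W := Q ^ (m * m - d ^ 2) * Q with hW
      have hWpos : 0 < W := by positivity
      have s1 : 2 * Q * (m * m * Q ^ (m * m - 1)) = 2 * m ^ 2 * (W * Q ^ (d ^ 2 - 1)) := by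
        rw [← e1, ← e2]; ring
      have s2 : Q ^ (m * m) * m ^ 2 + 2 * Q * ∑ g : (Fin m × Fin m → Fin (q + 1)), (N g).card ≤
          W * Q ^ (d ^ 2 - 1) * m ^ 2 + W * (2 * m ^ (2 * d - 2)) * m ^ 2 := by
        apply Nat.add_le_add
        · rw [e1]
        · calc 2 * Q * ∑ g : (Fin m × Fin m → Fin (q + 1)), (N g).card
              ≤ 2 * Q * (m ^ (2 * d) * Q ^ (m * m - d ^ 2)) := Nat.mul_le_mul_left _ hNs
            _ = W * (2 * m ^ (2 * d - 2)) * m ^ 2 := by rw [e3, hW]; ring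
      have s3 : W * (2 * m ^ (2 * d - 2)) * m ^ 2 ≤ W * Q ^ (d ^ 2 - 1) * m ^ 2 :=
        Nat.mul_le_mul_right _ (Nat.mul_le_mul_left _ h)
      have : 2 * m ^ 2 * (W * Q ^ (d ^ 2 - 1)) =
          W * Q ^ (d ^ 2 - 1) * m ^ 2 + W * Q ^ (d ^ 2 - 1) * m ^ 2 := by ring
      have hs' : 2 * Q * (m * m * Q ^ (m * m - 1)) <
          Q ^ (m * m) * m ^ 2 + 2 * Q * ∑ g : (Fin m × Fin m → Fin (q + 1)), (N g).card := hs
      omega
    · have hN0 : ∀ g, (N g).card = 0 := by
        intro g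
        rw [Finset.card_eq_zero, Finset.eq_empty_iff_forall_notMem]
        rintro ⟨a, b⟩ hp
        rw [hN, Finset.mem_filter, hP, Finset.mem_filter] at hp
        have := Fintype.card_le_of_injective _ hp.1.2.1
        rw [Fintype.card_fin, Fintype.card_fin] at this
        exact hdm this
      have hsum0 : ∑ g : (Fin m × Fin m → Fin (q + 1)), (N g).card = 0 :=
        Finset.sum_eq_zero fun g _ => hN0 g
      have e2 : Q * Q ^ (m * m - 1) = Q ^ (m * m) := by
        rw [← pow_succ']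
        congr 1
        have : 1 ≤ m * m := Nat.one_le_iff_ne_zero.mpr (by positivity)
        omega
      have hs' : 2 * Q * (m * m * Q ^ (m * m - 1)) <
          Q ^ (m * m) * m ^ 2 + 2 * Q * ∑ g : (Fin m × Fin m → Fin (q + 1)), (N g).card := hs
      rw [hsum0, mul_zero, add_zero] at hs'
      have : 2 * Q * (m * m * Q ^ (m * m - 1)) = Q ^ (m * m) * m ^ 2 + Q ^ (m * m) * m ^ 2 := by
        rw [← e2]; ring
      omega
  obtain ⟨g, hg⟩ := key
  set o : Fin d := ⟨0, by omega⟩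
  refine ⟨Z g \ (N g).image (fun p => (p.1 o, p.2 o)), ?_, ?_⟩
  · rintro ⟨a, b, ha, hb, hab⟩
    have hmem : (a, b) ∈ N g := by
      rw [hN, Finset.mem_filter, hP, Finset.mem_filter]
      refine ⟨⟨Finset.mem_univ _, ha, hb⟩, fun i j => ?_⟩
      have := (Finset.mem_sdiff.mp (hab i j)).1
      rw [hZ, Finset.mem_filter] at this
      exact this.2
    exact (Finset.mem_sdiff.mp (hab o o)).2 (Finset.mem_image.mpr ⟨(a, b), hmem, rfl⟩)
  · have h1 : (Z g).card ≤ (Z g \ (N g).image (fun p => (p.1 o, p.2 o))).card + (N g).card := by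
      have h2 := Finset.le_card_sdiff ((N g).image (fun p => (p.1 o, p.2 o))) (Z g)
      have h3 := Finset.card_image_le (s := N g) (f := fun p => (p.1 o, p.2 o))
      omega
    have h2 : 2 * Q * (Z g).card ≤
        2 * Q * (Z g \ (N g).image (fun p => (p.1 o, p.2 o))).card + 2 * Q * (N g).card :=
      (Nat.mul_le_mul_left (2 * Q) h1).trans (le_of_eq (Nat.mul_add _ _ _))
    exact Nat.le_of_add_le_add_right (hg.trans h2)

theorem HasKdd.mono {V W : Type} {d e : ℕ} (h : d ≤ e) {Γ : Finset (V × W)}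
    (H : HasKdd e Γ) : HasKdd d Γ := by
  obtain ⟨a, b, ha, hb, hab⟩ := H
  exact ⟨fun i => a (Fin.castLE h i), fun i => b (Fin.castLE h i),
    ha.comp (Fin.castLE_injective h), hb.comp (Fin.castLE_injective h), fun i j => hab _ _⟩

theorem transport {V W V' W' : Type} [DecidableEq V'] [DecidableEq W'] {d : ℕ} (hd : 0 < d)
    (α : V → V') (β : W → W') (iα : Function.Injective α) (iβ : Function.Injective β)
    (Γ : Finset (V × W)) (hΓ : ¬ HasKdd d Γ) :
    ¬ HasKdd d (Γ.image fun p => (α p.1, β p.2)) ∧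
      (Γ.image fun p => (α p.1, β p.2)).card = Γ.card := by
  constructor
  · rintro ⟨a, b, ha, hb, hab⟩
    set o : Fin d := ⟨0, hd⟩
    have h1 : ∀ i, ∃ x, α x = a i := by
      intro i
      obtain ⟨p, -, hp⟩ := Finset.mem_image.mp (hab i o)
      exact ⟨p.1, (Prod.mk.injEq _ _ _ _ ▸ hp : _ ∧ _).1⟩
    have h2 : ∀ j, ∃ x, β x = b j := by
      intro j
      obtain ⟨p, -, hp⟩ := Finset.mem_image.mp (hab o j)
      exact ⟨p.2, (Prod.mk.injEq _ _ _ _ ▸ hp : _ ∧ _).2⟩
    choose a' ha' using h1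
    choose b' hb' using h2
    apply hΓ
    refine ⟨a', b', ?_, ?_, ?_⟩
    · intro i j h
      apply ha
      rw [← ha' i, ← ha' j, h]
    · intro i j h
      apply hb
      rw [← hb' i, ← hb' j, h]
    · intro i j
      obtain ⟨p, hp, hpe⟩ := Finset.mem_image.mp (hab i j)
      simp only [Prod.mk.injEq] at hpe
      have e1 : p.1 = a' i := iα (hpe.1.trans (ha' i).symm)
      have e2 : p.2 = b' j := iβ (hpe.2.trans (hb' j).symm)
      rw [← e1, ← e2]
      exact hp
  · rw [Finset.card_image_of_injective]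
    rintro ⟨a, b⟩ ⟨a', b'⟩ h
    simp only [Prod.mk.injEq] at h
    rw [iα h.1, iβ h.2]

theorem toFin {V : Type} [Finite V] {d : ℕ} (hd : 0 < d) (m : ℕ) (hm : Nat.card V ≤ m)
    (Γ : Finset (V × V)) (hΓ : ¬ HasKdd d Γ) :
    ∃ Γ' : Finset (Fin m × Fin m), ¬ HasKdd d Γ' ∧ Γ'.card = Γ.card := by
  classical
  have e : V ≃ Fin (Nat.card V) := Finite.equivFin V
  set α : V → Fin m := fun v => Fin.castLE hm (e v) with hα
  have iα : Function.Injective α := (Fin.castLE_injective hm).comp e.injective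
  obtain ⟨h1, h2⟩ := transport hd α α iα iα Γ hΓ
  exact ⟨_, h1, h2⟩

/-- points and lines of the affine plane -/
theorem free22 (p : ℕ) [Fact p.Prime] :
    ∃ Γ : Finset ((ZMod p × ZMod p) × (ZMod p × ZMod p)), ¬ HasKdd 2 Γ ∧ Γ.card = p ^ 3 := by
  classical
  refine ⟨(Finset.univ : Finset (ZMod p × ZMod p × ZMod p)).image
    fun t => ((t.1, t.2.1 * t.1 + t.2.2), (t.2.1, t.2.2)), ?_, ?_⟩
  · rintro ⟨a, b, ha, hb, hab⟩
    have h : ∀ i j, (a i).2 = (b j).1 * (a i).1 + (b j).2 := by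
      intro i j
      obtain ⟨t, -, ht⟩ := Finset.mem_image.mp (hab i j)
      rw [Prod.ext_iff, Prod.ext_iff, Prod.ext_iff] at ht
      obtain ⟨⟨h1, h2⟩, h3, h4⟩ := ht
      simp only at h1 h2 h3 h4
      rw [← h1, ← h2, ← h3, ← h4]
    have h01 : a 0 ≠ a 1 := fun h => absurd (ha h) (by decide)
    have g01 : b 0 ≠ b 1 := fun h => absurd (hb h) (by decide)
    have e00 := h 0 0
    have e01 := h 0 1
    have e10 := h 1 0
    have e11 := h 1 1
    have k : ((a 0).1 - (a 1).1) * ((b 0).1 - (b 1).1) = 0 := by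
      linear_combination e01 + e10 - e00 - e11
    rcases mul_eq_zero.mp k with k1 | k1
    · apply h01
      rw [sub_eq_zero] at k1
      refine Prod.ext k1 ?_
      rw [e00, e10, k1]
    · apply g01
      rw [sub_eq_zero] at k1
      refine Prod.ext k1 ?_
      rw [k1] at e00
      linear_combination e00.symm.trans e01
  · rw [Finset.card_image_of_injective, Finset.card_univ, Fintype.card_prod, Fintype.card_prod,
      ZMod.card]
    · ring
    · rintro ⟨x, y, z⟩ ⟨x', y', z'⟩ h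
      simp only [Prod.mk.injEq] at h
      obtain ⟨⟨h1, -⟩, h2, h3⟩ := h
      rw [h1, h2, h3]

theorem three_roots {K : Type} [Field K] (e B C y0 y1 y2 : K) (h01 : y0 ≠ y1) (h02 : y0 ≠ y2)
    (h12 : y1 ≠ y2) (h0 : e * y0 ^ 2 + B * y0 + C = 0) (h1 : e * y1 ^ 2 + B * y1 + C = 0)
    (h2 : e * y2 ^ 2 + B * y2 + C = 0) : e = 0 := by
  have k1 : (y0 - y1) * (e * (y0 + y1) + B) = 0 := by linear_combination h0 - h1
  have k2 : (y0 - y2) * (e * (y0 + y2) + B) = 0 := by linear_combination h0 - h2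
  have l1 := (mul_eq_zero.mp k1).resolve_left (sub_ne_zero.mpr h01)
  have l2 := (mul_eq_zero.mp k2).resolve_left (sub_ne_zero.mpr h02)
  have k3 : (y1 - y2) * e = 0 := by linear_combination l1 - l2
  exact (mul_eq_zero.mp k3).resolve_left (sub_ne_zero.mpr h12)

/-- the projective norm graph of Alon, Ronyai and Szabo -/
theorem free33 (p : ℕ) [hp : Fact p.Prime] :
    ∃ Γ : Finset ((GaloisField p 2 × (ZMod p)ˣ) × (GaloisField p 2 × (ZMod p)ˣ)),
      ¬ HasKdd 3 Γ ∧ p ^ 2 * (p - 1) * (p ^ 2 - 1) ≤ Γ.card := by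
  classical
  set K := GaloisField p 2 with hK
  have : Fintype K := Fintype.ofFinite K
  have hcardK : Fintype.card K = p ^ 2 := by
    rw [← Nat.card_eq_fintype_card]; exact GaloisField.card p 2 (by norm_num)
  have hnorm : ∀ x : K, algebraMap (ZMod p) K (Algebra.norm (ZMod p) x) = x * x ^ p := by
    intro x
    have h := FiniteField.algebraMap_norm_eq_prod_pow (ZMod p) K x
    rw [GaloisField.finrank p (by norm_num), Nat.card_zmod] at h
    rw [h, Finset.prod_range_succ, Finset.prod_range_one, pow_zero, pow_one, pow_one]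
  set Γ : Finset ((K × (ZMod p)ˣ) × (K × (ZMod p)ˣ)) := Finset.univ.filter fun x =>
    Algebra.norm (ZMod p) (x.1.1 + x.2.1) = (x.1.2 : ZMod p) * (x.2.2 : ZMod p) with hΓ
  refine ⟨Γ, ?_, ?_⟩
  · rintro ⟨a, b, ha, hb, hab⟩
    have hE : ∀ i j, Algebra.norm (ZMod p) ((a i).1 + (b j).1) =
        ((a i).2 : ZMod p) * ((b j).2 : ZMod p) := by
      intro i j
      have := hab i j
      rw [hΓ, Finset.mem_filter] at this
      exact this.2
    have hE' : ∀ i j, ((a i).1 + (b j).1) * ((a i).1 + (b j).1) ^ p =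
        algebraMap (ZMod p) K ((a i).2 : ZMod p) * algebraMap (ZMod p) K ((b j).2 : ZMod p) := by
      intro i j
      rw [← hnorm, hE, map_mul]
    have hane : ∀ i, algebraMap (ZMod p) K ((a i).2 : ZMod p) ≠ 0 := fun i h => by
      rw [map_eq_zero] at h
      exact (a i).2.ne_zero h
    have hbne : ∀ i, algebraMap (ZMod p) K ((b i).2 : ZMod p) ≠ 0 := fun i h => by
      rw [map_eq_zero] at h
      exact (b i).2.ne_zero h
    have hs : ∀ i j, (a i).1 + (b j).1 ≠ 0 := by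
      intro i j h
      have h1 := hE' i j
      rw [h, zero_mul] at h1
      exact mul_ne_zero (hane i) (hbne j) h1.symm
    -- distinct first coordinates
    have hA : ∀ i j, i ≠ j → (a i).1 ≠ (a j).1 := by
      intro i j hij h
      apply hij
      apply ha
      refine Prod.ext h (Units.ext ?_)
      have h1 := hE i 0
      have h2 := hE j 0
      rw [h, h2] at h1
      exact (mul_right_cancel₀ (b 0).2.ne_zero h1).symm
    have hB : ∀ i j, i ≠ j → (b i).1 ≠ (b j).1 := by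
      intro i j hij h
      apply hij
      apply hb
      refine Prod.ext h (Units.ext ?_)
      have h1 := hE 0 i
      have h2 := hE 0 j
      rw [h, h2] at h1
      exact (mul_left_cancel₀ (a 0).2.ne_zero h1).symm
    set c1 := (a 1).1 - (a 0).1 with hc1
    set c2 := (a 2).1 - (a 0).1 with hc2
    have c1ne : c1 ≠ 0 := sub_ne_zero.mpr (hA 1 0 (by decide))
    have c2ne : c2 ≠ 0 := sub_ne_zero.mpr (hA 2 0 (by decide))
    have c12 : c1 ≠ c2 := by
      intro h
      apply hA 1 2 (by decide)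
      rw [hc1, hc2] at h
      exact sub_left_inj.mp h
    set Y : Fin 3 → K := fun j => ((a 0).1 + (b j).1)⁻¹ with hY
    have hYne : ∀ i j, i ≠ j → Y i ≠ Y j := by
      intro i j hij h
      apply hB i j hij
      rw [hY] at h
      have := inv_injective h
      exact add_left_cancel this
    set A0 := algebraMap (ZMod p) K ((a 0).2 : ZMod p) with hA0
    have key : ∀ (c : K) (i : Fin 3), c = (a i).1 - (a 0).1 → ∀ j,
        (1 + c * Y j) * (1 + c ^ p * Y j ^ p) =
          algebraMap (ZMod p) K ((a i).2 : ZMod p) / A0 := by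
      intro c i hc j
      have e1 := hE' i j
      have e2 := hE' 0 j
      set s := (a 0).1 + (b j).1 with hs'
      have hsne : s ≠ 0 := hs 0 j
      have e3 : (a i).1 + (b j).1 = s * (1 + c * Y j) := by
        have hss : s * s⁻¹ = 1 := mul_inv_cancel₀ hsne
        have hYj : Y j = s⁻¹ := rfl
        rw [hYj, hc]
        linear_combination (-((a i).1 - (a 0).1)) * hss - hs'
      have e4 : (1 + c * Y j) ^ p = 1 + c ^ p * Y j ^ p := by
        rw [add_pow_char, one_pow, mul_pow]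
      rw [e3, mul_pow, e4] at e1
      rw [eq_div_iff (hane 0)]
      have hb0 := hbne j
      have e5 : (1 + c * Y j) * (1 + c ^ p * Y j ^ p) * (s * s ^ p) =
          algebraMap (ZMod p) K ((a i).2 : ZMod p) *
            algebraMap (ZMod p) K ((b j).2 : ZMod p) := by
        rw [← e1]; ring
      rw [e2, ← hA0, ← mul_assoc] at e5
      exact mul_right_cancel₀ hb0 e5
    have k1 := key c1 1 rfl
    have k2 := key c2 2 rfl
    set α1 := algebraMap (ZMod p) K ((a 1).2 : ZMod p) / A0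
    set α2 := algebraMap (ZMod p) K ((a 2).2 : ZMod p) / A0
    set u1 := c1⁻¹ with hu1
    set u2 := c2⁻¹ with hu2
    have hu : u1 ≠ u2 := fun h => c12 (inv_injective h)
    set w := u1 - u2 with hw
    have wne : w ≠ 0 := sub_ne_zero.mpr hu
    have d1 : u1 * c1 = 1 := inv_mul_cancel₀ c1ne
    have d2 : u2 * c2 = 1 := inv_mul_cancel₀ c2ne
    have d1p : u1 ^ p * c1 ^ p = 1 := by rw [← mul_pow, d1, one_pow]
    have d2p : u2 ^ p * c2 ^ p = 1 := by rw [← mul_pow, d2, one_pow]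
    have m1 : ∀ j, (u1 + Y j) * (u1 ^ p + Y j ^ p) = α1 * (u1 * u1 ^ p) := by
      intro j
      rw [← k1 j]
      have h1 : u1 * (1 + c1 * Y j) = u1 + Y j := by linear_combination Y j * d1
      have h2 : u1 ^ p * (1 + c1 ^ p * Y j ^ p) = u1 ^ p + Y j ^ p := by
        linear_combination Y j ^ p * d1p
      rw [← h1, ← h2]; ring
    have m2 : ∀ j, (u2 + Y j) * (u2 ^ p + Y j ^ p) = α2 * (u2 * u2 ^ p) := by
      intro j
      rw [← k2 j]
      have h1 : u2 * (1 + c2 * Y j) = u2 + Y j := by linear_combination Y j * d2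
      have h2 : u2 ^ p * (1 + c2 ^ p * Y j ^ p) = u2 ^ p + Y j ^ p := by
        linear_combination Y j ^ p * d2p
      rw [← h1, ← h2]; ring
    have hwp : w ^ p = u1 ^ p - u2 ^ p := by rw [hw, sub_pow_char]
    set κ := α1 * (u1 * u1 ^ p) - α2 * (u2 * u2 ^ p) - u1 * u1 ^ p + u2 * u2 ^ p with hκ
    have hlin : ∀ j, w ^ p * Y j + w * Y j ^ p = κ := by
      intro j
      rw [hwp, hκ, ← m1 j, ← m2 j, hw]
      ring
    have hquad : ∀ j, (-(w ^ p)) * Y j ^ 2 + (κ + w * u1 ^ p - u1 * w ^ p) * Y j +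
        (u1 * κ + w * (u1 * u1 ^ p) - w * (α1 * (u1 * u1 ^ p))) = 0 := by
      intro j
      rw [← m1 j, ← hlin j]
      ring
    have := three_roots _ _ _ _ _ _ (hYne 0 1 (by decide)) (hYne 0 2 (by decide))
      (hYne 1 2 (by decide)) (hquad 0) (hquad 1) (hquad 2)
    rw [neg_eq_zero] at this
    exact pow_ne_zero p wne this
  · set g : (K × (ZMod p)ˣ) × Kˣ → (K × (ZMod p)ˣ) × (K × (ZMod p)ˣ) := fun x =>
      (x.1, ((x.2 : K) - x.1.1, Units.map (Algebra.norm (ZMod p) : K →* ZMod p) x.2 * x.1.2⁻¹))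
      with hg
    have hgi : Function.Injective g := by
      rintro ⟨⟨A, s⟩, c⟩ ⟨⟨A', s'⟩, c'⟩ h
      simp only [hg, Prod.mk.injEq] at h
      obtain ⟨⟨h1, h2⟩, h3, -⟩ := h
      subst h1 h2
      have : c = c' := Units.ext (sub_left_injective h3)
      rw [this]
    have hsub : (Finset.univ : Finset ((K × (ZMod p)ˣ) × Kˣ)).image g ⊆ Γ := by
      intro x hx
      obtain ⟨⟨⟨A, s⟩, c⟩, -, rfl⟩ := Finset.mem_image.mp hx
      rw [hΓ, Finset.mem_filter]
      refine ⟨Finset.mem_univ _, ?_⟩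
      simp only [hg, Units.val_mul, Units.coe_map]
      rw [add_sub_cancel]
      have : (s : ZMod p) * (((Algebra.norm (ZMod p)) (c : K)) * ((s⁻¹ : (ZMod p)ˣ) : ZMod p)) =
          (Algebra.norm (ZMod p)) (c : K) := by
        rw [mul_left_comm, Units.mul_inv, mul_one]
      exact this.symm
    have hc := Finset.card_le_card hsub
    rw [Finset.card_image_of_injective _ hgi, Finset.card_univ, Fintype.card_prod,
      Fintype.card_prod, Fintype.card_units, Fintype.card_units, ZMod.card, hcardK] at hc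
    exact hc

/-- From a `K_{d,d}`-free bipartite graph on `m + m` vertices to a 3-graph on `n ≥ 3m` vertices. -/
theorem of_bipartite (m d n : ℕ) (hd : 0 < d) (hn : 3 * m ≤ n)
    (Γ : Finset (Fin m × Fin m)) (hΓ : ¬ HasKdd d Γ) :
    ∃ E : Finset (Finset (Fin n)), (∀ e ∈ E, e.card = 3) ∧ E.card = Γ.card * m ∧
      ∀ L : Fin d → Fin d → Fin d, IsLatin L → ¬ HasCopy L E := by
  classical
  set α : Fin m → Fin n := fun i => ⟨i.1, by omega⟩ with hα
  set β : Fin m → Fin n := fun i => ⟨m + i.1, by omega⟩ with hβ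
  set γ : Fin m → Fin n := fun i => ⟨2 * m + i.1, by omega⟩ with hγ
  have iα : Function.Injective α := fun i j h => by
    rw [hα] at h
    simp only [Fin.mk.injEq] at h
    exact Fin.ext h
  have iβ : Function.Injective β := fun i j h => by
    rw [hβ] at h
    simp only [Fin.mk.injEq, Nat.add_left_cancel_iff] at h
    exact Fin.ext h
  have iγ : Function.Injective γ := fun i j h => by
    rw [hγ] at h
    simp only [Fin.mk.injEq, Nat.add_left_cancel_iff] at h
    exact Fin.ext h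
  set A := (Finset.univ : Finset (Fin m)).image α with hA
  set B := (Finset.univ : Finset (Fin m)).image β with hB
  set C := (Finset.univ : Finset (Fin m)).image γ with hC
  have dAB : Disjoint A B := by
    rw [Finset.disjoint_left]
    intro x hx hy
    obtain ⟨i, -, rfl⟩ := Finset.mem_image.mp hx
    obtain ⟨j, -, hj⟩ := Finset.mem_image.mp hy
    have := congrArg Fin.val hj
    simp only [hα, hβ] at this
    have := i.2
    omega
  have dAC : Disjoint A C := by
    rw [Finset.disjoint_left]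
    intro x hx hy
    obtain ⟨i, -, rfl⟩ := Finset.mem_image.mp hx
    obtain ⟨j, -, hj⟩ := Finset.mem_image.mp hy
    have := congrArg Fin.val hj
    simp only [hα, hγ] at this
    have := i.2
    omega
  have dBC : Disjoint B C := by
    rw [Finset.disjoint_left]
    intro x hx hy
    obtain ⟨i, -, rfl⟩ := Finset.mem_image.mp hx
    obtain ⟨j, -, hj⟩ := Finset.mem_image.mp hy
    have := congrArg Fin.val hj
    simp only [hβ, hγ] at this
    have := i.2
    omega
  set Γ' : Finset (Fin n × Fin n) := Γ.image fun p => (α p.1, β p.2) with hΓ'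
  have hsub : Γ' ⊆ A ×ˢ B := by
    intro x hx
    obtain ⟨p, -, rfl⟩ := Finset.mem_image.mp hx
    exact Finset.mem_product.mpr ⟨Finset.mem_image_of_mem _ (Finset.mem_univ _),
      Finset.mem_image_of_mem _ (Finset.mem_univ _)⟩
  obtain ⟨hfree, hcardΓ⟩ := transport hd α β iα iβ Γ hΓ
  obtain ⟨hc, h3⟩ := card_triples A B C dAB dAC dBC Γ' hsub
  refine ⟨triples Γ' C, h3, ?_, fun L hL =>
    no_copy hd A B C dAB dAC dBC Γ' hsub hfree L hL⟩
  rw [hc, hcardΓ, hC, Finset.card_image_of_injective _ iγ, Finset.card_univ, Fintype.card_fin]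

/-- Transfer: bipartite graphs with `c m^(2-θ)` edges give 3-graphs with `c n^(3-θ) / 216` edges. -/
theorem of_graph (d : ℕ) (hd : 0 < d) (θ c : ℝ) (hθ0 : 0 ≤ θ) (hθ1 : θ ≤ 3) (hc0 : 0 ≤ c)
    (h : ∀ m : ℕ, 1 ≤ m → ∃ Γ : Finset (Fin m × Fin m), ¬ HasKdd d Γ ∧
      c * (m : ℝ) ^ (2 - θ) ≤ (Γ.card : ℝ)) (n : ℕ) (hn : 3 ≤ n) :
    ∃ E : Finset (Finset (Fin n)), (∀ e ∈ E, e.card = 3) ∧
      c / 216 * (n : ℝ) ^ (3 - θ) ≤ (E.card : ℝ) ∧
      ∀ L : Fin d → Fin d → Fin d, IsLatin L → ¬ HasCopy L E := by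
  set m := n / 3 with hm
  have hm1 : 1 ≤ m := by omega
  have hnm : n ≤ 6 * m := by omega
  obtain ⟨Γ, hfree, hcard⟩ := h m hm1
  obtain ⟨E, h3, hE, hno⟩ := of_bipartite m d n hd (by omega) Γ hfree
  refine ⟨E, h3, ?_, hno⟩
  have hmR : (1 : ℝ) ≤ (m : ℝ) := by exact_mod_cast hm1
  have hm0 : (0 : ℝ) < (m : ℝ) := by linarith
  have hEr : (E.card : ℝ) = (Γ.card : ℝ) * m := by rw [hE]; push_cast; ring
  have hlow : c * (m : ℝ) ^ (3 - θ) ≤ (E.card : ℝ) := by
    have e1 : (m : ℝ) ^ (3 - θ) = (m : ℝ) ^ (2 - θ) * m := by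
      rw [← Real.rpow_add_one hm0.ne']
      congr 1
      ring
    rw [hEr, e1, ← mul_assoc]
    exact mul_le_mul_of_nonneg_right hcard hm0.le
  have hn6 : (n : ℝ) / 6 ≤ (m : ℝ) := by
    rw [div_le_iff₀ (by norm_num)]
    have : (n : ℝ) ≤ 6 * (m : ℝ) := by exact_mod_cast hnm
    linarith
  have hn0 : (0 : ℝ) < (n : ℝ) := by
    have : 0 < n := by omega
    exact_mod_cast this
  have hmono : ((n : ℝ) / 6) ^ (3 - θ) ≤ (m : ℝ) ^ (3 - θ) :=
    Real.rpow_le_rpow (by positivity) hn6 (by linarith)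
  have h6 : (6 : ℝ) ^ (3 - θ) ≤ 216 := by
    calc (6 : ℝ) ^ (3 - θ) ≤ (6 : ℝ) ^ (3 : ℝ) :=
          Real.rpow_le_rpow_of_exponent_le (by norm_num) (by linarith)
      _ = 216 := by norm_num
  have hnpos : 0 ≤ (n : ℝ) ^ (3 - θ) := by positivity
  calc c / 216 * (n : ℝ) ^ (3 - θ) = c * ((n : ℝ) ^ (3 - θ) / 216) := by ring
    _ ≤ c * ((n : ℝ) ^ (3 - θ) / (6 : ℝ) ^ (3 - θ)) := by
        apply mul_le_mul_of_nonneg_left _ hc0
        apply div_le_div_of_nonneg_left hnpos (by positivity) h6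
    _ = c * ((n : ℝ) / 6) ^ (3 - θ) := by rw [Real.div_rpow hn0.le (by norm_num)]
    _ ≤ c * (m : ℝ) ^ (3 - θ) := mul_le_mul_of_nonneg_left hmono hc0
    _ ≤ _ := hlow

/-- The random construction. -/
theorem graph_random (d : ℕ) (hd : 2 ≤ d) (m : ℕ) (hm1 : 1 ≤ m) :
    ∃ Γ : Finset (Fin m × Fin m), ¬ HasKdd d Γ ∧
      1 / 6 * (m : ℝ) ^ (2 - 2 / ((d : ℝ) + 1)) ≤ (Γ.card : ℝ) := by
  set θ : ℝ := 2 / ((d : ℝ) + 1) with hθ
  have hd0 : (2 : ℝ) ≤ (d : ℝ) := by exact_mod_cast hd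
  have hθ0 : 0 < θ := by rw [hθ]; positivity
  have hmR : (1 : ℝ) ≤ (m : ℝ) := by exact_mod_cast hm1
  have hm0 : (0 : ℝ) < (m : ℝ) := by linarith
  set t : ℝ := (m : ℝ) ^ θ with ht
  have ht1 : 1 ≤ t := Real.one_le_rpow hmR hθ0.le
  set q := ⌈2 * t⌉₊ - 1 with hq
  have hceil : 2 ≤ ⌈2 * t⌉₊ := by
    have h1 : (2 : ℝ) ≤ (⌈2 * t⌉₊ : ℝ) := by
      have := Nat.le_ceil (2 * t)
      linarith
    exact_mod_cast h1
  have hq1 : q + 1 = ⌈2 * t⌉₊ := by omega
  have hqlo : 2 * t ≤ ((q + 1 : ℕ) : ℝ) := by rw [hq1]; exact Nat.le_ceil _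
  have hqhi : ((q + 1 : ℕ) : ℝ) ≤ 3 * t := by
    rw [hq1]
    have := (Nat.ceil_lt_add_one (show 0 ≤ 2 * t by positivity)).le
    linarith
  have hcond : 2 * m ^ (2 * d - 2) ≤ (q + 1) ^ (d ^ 2 - 1) := by
    have hd21 : 1 ≤ d ^ 2 - 1 := by
      have : 2 ^ 2 ≤ d ^ 2 := Nat.pow_le_pow_left hd 2
      omega
    have h1 : (2 * t) ^ (d ^ 2 - 1) ≤ (((q + 1 : ℕ)) : ℝ) ^ (d ^ 2 - 1) :=
      pow_le_pow_left₀ (by positivity) hqlo _
    have h2 : t ^ (d ^ 2 - 1) = (m : ℝ) ^ (2 * d - 2) := by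
      rw [ht, ← Real.rpow_natCast, ← Real.rpow_mul hm0.le, ← Real.rpow_natCast]
      congr 1
      have e1 : ((d ^ 2 - 1 : ℕ) : ℝ) = (d : ℝ) ^ 2 - 1 := by
        rw [Nat.cast_sub (Nat.one_le_pow _ _ (by omega))]
        push_cast
        ring
      have e2 : ((2 * d - 2 : ℕ) : ℝ) = 2 * (d : ℝ) - 2 := by
        rw [Nat.cast_sub (by omega)]
        push_cast
        ring
      rw [e1, e2, hθ]
      field_simp
      ring
    have h3 : (2 : ℝ) ≤ 2 ^ (d ^ 2 - 1) := by
      calc (2 : ℝ) = 2 ^ 1 := by norm_num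
        _ ≤ 2 ^ (d ^ 2 - 1) := pow_le_pow_right₀ (by norm_num) hd21
    have h4 : (2 : ℝ) * (m : ℝ) ^ (2 * d - 2) ≤ (((q + 1 : ℕ)) : ℝ) ^ (d ^ 2 - 1) := by
      calc (2 : ℝ) * (m : ℝ) ^ (2 * d - 2) ≤ 2 ^ (d ^ 2 - 1) * (m : ℝ) ^ (2 * d - 2) :=
            mul_le_mul_of_nonneg_right h3 (by positivity)
        _ = (2 * t) ^ (d ^ 2 - 1) := by rw [mul_pow, h2]
        _ ≤ _ := h1
    exact_mod_cast h4
  obtain ⟨Γ, hfree, hcard⟩ := exists_free m d q hm1 hd hcond
  refine ⟨Γ, hfree, ?_⟩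
  have hc : (m : ℝ) ^ 2 ≤ 2 * ((q + 1 : ℕ) : ℝ) * (Γ.card : ℝ) := by exact_mod_cast hcard
  have ht0 : 0 < t := by linarith
  have hΓlow : (m : ℝ) ^ 2 / (6 * t) ≤ (Γ.card : ℝ) := by
    rw [div_le_iff₀ (by positivity)]
    have : 2 * ((q + 1 : ℕ) : ℝ) * (Γ.card : ℝ) ≤ 2 * (3 * t) * (Γ.card : ℝ) :=
      mul_le_mul_of_nonneg_right (by linarith) (Nat.cast_nonneg _)
    nlinarith
  rw [Real.rpow_sub hm0, ← ht]
  have e3 : (m : ℝ) ^ (2 : ℝ) = (m : ℝ) ^ 2 := by
    exact_mod_cast Real.rpow_natCast (m : ℝ) 2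
  rw [e3]
  calc 1 / 6 * ((m : ℝ) ^ 2 / t) = (m : ℝ) ^ 2 / (6 * t) := by field_simp
    _ ≤ _ := hΓlow

theorem choose_prime (k m : ℕ) (hk : 1 ≤ k) (hm : 1 ≤ m) :
    m < 2 ^ k ∨ ∃ p : ℕ, p.Prime ∧ p ^ k ≤ m ∧ m < (2 * p) ^ k := by
  classical
  have hex : ∃ s, m < (s + 1) ^ k := ⟨m, by
    calc m < m + 1 := Nat.lt_succ_self m
      _ = (m + 1) ^ 1 := (pow_one _).symm
      _ ≤ (m + 1) ^ k := Nat.pow_le_pow_right (by omega) hk⟩
  set s := Nat.find hex with hs
  have h1 : m < (s + 1) ^ k := Nat.find_spec hex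
  by_cases hs1 : s ≤ 1
  · left
    calc m < (s + 1) ^ k := h1
      _ ≤ 2 ^ k := Nat.pow_le_pow_left (by omega) k
  · right
    push Not at hs1
    have h2 : s ^ k ≤ m := by
      have := Nat.find_min hex (m := s - 1) (by omega)
      rw [Nat.sub_add_cancel (by omega)] at this
      omega
    obtain ⟨p, hp, h3, h4⟩ := Nat.exists_prime_lt_and_le_two_mul (s / 2) (by omega)
    refine ⟨p, hp, ?_, ?_⟩
    · exact (Nat.pow_le_pow_left (by omega) k).trans h2
    · exact h1.trans_le (Nat.pow_le_pow_left (by omega) k)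

theorem single (d m : ℕ) (hd : 2 ≤ d) (hm : 1 ≤ m) :
    ∃ Γ : Finset (Fin m × Fin m), ¬ HasKdd d Γ ∧ Γ.card = 1 := by
  refine ⟨{(⟨0, hm⟩, ⟨0, hm⟩)}, ?_, Finset.card_singleton _⟩
  rintro ⟨a, b, ha, -, hab⟩
  have h1 := hab ⟨0, by omega⟩ ⟨0, by omega⟩
  have h2 := hab ⟨1, by omega⟩ ⟨0, by omega⟩
  rw [Finset.mem_singleton, Prod.mk.injEq] at h1 h2
  have := ha (h1.1.trans h2.1.symm)
  simp at this

theorem graph22 (m : ℕ) (hm : 1 ≤ m) :
    ∃ Γ : Finset (Fin m × Fin m), ¬ HasKdd 2 Γ ∧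
      3 / 256 * (m : ℝ) ^ (2 - 1 / 2 : ℝ) ≤ (Γ.card : ℝ) := by
  have hm0 : (0 : ℝ) ≤ (m : ℝ) := Nat.cast_nonneg m
  have hpow : ∀ x : ℝ, 0 ≤ x → ((x ^ 2 : ℝ)) ^ (2 - 1 / 2 : ℝ) = x ^ 3 := by
    intro x hx
    rw [← Real.rpow_natCast x 2, ← Real.rpow_mul hx, ← Real.rpow_natCast x 3]
    norm_num
  rcases choose_prime 2 m (by norm_num) hm with h | ⟨p, hp, h1, h2⟩
  · obtain ⟨Γ, hΓ, hc⟩ := single 2 m le_rfl hm
    refine ⟨Γ, hΓ, ?_⟩
    rw [hc, Nat.cast_one]
    have h3 : (m : ℝ) ≤ (2 : ℝ) ^ 2 := by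
      have : m ≤ 2 ^ 2 := h.le
      exact_mod_cast this
    have h4 := Real.rpow_le_rpow hm0 h3 (show (0 : ℝ) ≤ 2 - 1 / 2 by norm_num)
    rw [hpow 2 (by norm_num)] at h4
    linarith
  · have : Fact p.Prime := ⟨hp⟩
    obtain ⟨Γ, hΓ, hc⟩ := free22 p
    obtain ⟨Γ', hΓ', hc'⟩ := toFin (d := 2) (by norm_num) m
      (by rw [Nat.card_prod, Nat.card_zmod]; nlinarith [h1]) Γ hΓ
    refine ⟨Γ', hΓ', ?_⟩
    rw [hc', hc]
    have h3 : (m : ℝ) ≤ (2 * (p : ℝ)) ^ 2 := by
      have : m ≤ (2 * p) ^ 2 := h2.le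
      exact_mod_cast this
    have h4 := Real.rpow_le_rpow hm0 h3 (show (0 : ℝ) ≤ 2 - 1 / 2 by norm_num)
    rw [hpow _ (by positivity)] at h4
    push_cast
    have h5 : (0 : ℝ) ≤ (p : ℝ) ^ 3 := by positivity
    nlinarith

theorem graph33 (m : ℕ) (hm : 1 ≤ m) :
    ∃ Γ : Finset (Fin m × Fin m), ¬ HasKdd 3 Γ ∧
      3 / 256 * (m : ℝ) ^ (2 - 1 / 3 : ℝ) ≤ (Γ.card : ℝ) := by
  have hm0 : (0 : ℝ) ≤ (m : ℝ) := Nat.cast_nonneg m
  have hpow : ∀ x : ℝ, 0 ≤ x → ((x ^ 3 : ℝ)) ^ (2 - 1 / 3 : ℝ) = x ^ 5 := by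
    intro x hx
    rw [← Real.rpow_natCast x 3, ← Real.rpow_mul hx, ← Real.rpow_natCast x 5]
    norm_num
  rcases choose_prime 3 m (by norm_num) hm with h | ⟨p, hp, h1, h2⟩
  · obtain ⟨Γ, hΓ, hc⟩ := single 3 m (by norm_num) hm
    refine ⟨Γ, hΓ, ?_⟩
    rw [hc, Nat.cast_one]
    have h3 : (m : ℝ) ≤ (2 : ℝ) ^ 3 := by
      have : m ≤ 2 ^ 3 := h.le
      exact_mod_cast this
    have h4 := Real.rpow_le_rpow hm0 h3 (show (0 : ℝ) ≤ 2 - 1 / 3 by norm_num)
    rw [hpow 2 (by norm_num)] at h4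
    linarith
  · have : Fact p.Prime := ⟨hp⟩
    have hp2 := hp.two_le
    obtain ⟨Γ, hΓ, hc⟩ := free33 p
    have hV : Nat.card (GaloisField p 2 × (ZMod p)ˣ) ≤ m := by
      rw [Nat.card_prod, GaloisField.card p 2 (by norm_num), Nat.card_eq_fintype_card,
        ZMod.card_units]
      calc p ^ 2 * (p - 1) ≤ p ^ 2 * p := Nat.mul_le_mul_left _ (Nat.sub_le _ _)
        _ = p ^ 3 := by ring
        _ ≤ m := h1
    obtain ⟨Γ', hΓ', hc'⟩ := toFin (d := 3) (by norm_num) m hV Γ hΓ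
    refine ⟨Γ', hΓ', ?_⟩
    rw [hc']
    have h3 : (m : ℝ) ≤ (2 * (p : ℝ)) ^ 3 := by
      have : m ≤ (2 * p) ^ 3 := h2.le
      exact_mod_cast this
    have h4 := Real.rpow_le_rpow hm0 h3 (show (0 : ℝ) ≤ 2 - 1 / 3 by norm_num)
    rw [hpow _ (by positivity)] at h4
    have hpR : (2 : ℝ) ≤ (p : ℝ) := by exact_mod_cast hp2
    have h6 : ((p ^ 2 * (p - 1) * (p ^ 2 - 1) : ℕ) : ℝ) =
        (p : ℝ) ^ 2 * ((p : ℝ) - 1) * ((p : ℝ) ^ 2 - 1) := by
      rw [Nat.cast_mul, Nat.cast_mul, Nat.cast_sub (by omega),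
        Nat.cast_sub (Nat.one_le_pow _ _ (by omega))]
      push_cast
      ring
    have h7 : (p : ℝ) ^ 2 * ((p : ℝ) - 1) * ((p : ℝ) ^ 2 - 1) ≤ (Γ.card : ℝ) := by
      rw [← h6]
      exact_mod_cast hc
    have h8 : 3 / 8 * (p : ℝ) ^ 5 ≤ (p : ℝ) ^ 2 * ((p : ℝ) - 1) * ((p : ℝ) ^ 2 - 1) := by
      have e1 : (p : ℝ) / 2 ≤ (p : ℝ) - 1 := by linarith
      have e2 : 3 / 4 * (p : ℝ) ^ 2 ≤ (p : ℝ) ^ 2 - 1 := by nlinarith
      calc 3 / 8 * (p : ℝ) ^ 5 = (p : ℝ) ^ 2 * ((p : ℝ) / 2) * (3 / 4 * (p : ℝ) ^ 2) := by ring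
        _ ≤ (p : ℝ) ^ 2 * ((p : ℝ) - 1) * (3 / 4 * (p : ℝ) ^ 2) := by gcongr
        _ ≤ _ := by
            apply mul_le_mul_of_nonneg_left e2
            have : 0 ≤ (p : ℝ) - 1 := by linarith
            positivity
    have h9 : 3 / 256 * (2 * (p : ℝ)) ^ 5 = 3 / 8 * (p : ℝ) ^ 5 := by ring
    nlinarith

/-- The saving in the exponent: `1/2`, `1/3`, `1/3`, `2/(d+1)` for `d = 2, 3, 4` and `d > 4`. -/
noncomputable def saving (d : ℕ) : ℝ :=
  if d = 2 then 1 / 2 else if d ≤ 4 then 1 / 3 else 2 / ((d : ℝ) + 1)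

/-- For every `d ≥ 2` and `n ≥ 3` there is one 3-graph on `n` vertices with at least
`n ^ (3 - saving d) / 20000` edges which contains `H_L` for no Latin square `L` of order `d`. -/
theorem result (d : ℕ) (hd : 2 ≤ d) (n : ℕ) (hn : 3 ≤ n) :
    ∃ E : Finset (Finset (Fin n)), (∀ e ∈ E, e.card = 3) ∧
      (n : ℝ) ^ (3 - saving d) / 20000 ≤ (E.card : ℝ) ∧
      ∀ L : Fin d → Fin d → Fin d, IsLatin L → ¬ HasCopy L E := by
  have fin : ∀ c : ℝ, 3 / 256 ≤ c → 0 ≤ saving d → saving d ≤ 3 →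
      (∀ m : ℕ, 1 ≤ m → ∃ Γ : Finset (Fin m × Fin m), ¬ HasKdd d Γ ∧
        c * (m : ℝ) ^ (2 - saving d) ≤ (Γ.card : ℝ)) →
      ∃ E : Finset (Finset (Fin n)), (∀ e ∈ E, e.card = 3) ∧
      (n : ℝ) ^ (3 - saving d) / 20000 ≤ (E.card : ℝ) ∧
      ∀ L : Fin d → Fin d → Fin d, IsLatin L → ¬ HasCopy L E := by
    intro c hc h0 h3 h
    obtain ⟨E, h1, h2, h4⟩ := of_graph d (by omega) (saving d) c h0 h3 (by linarith) h n hn
    refine ⟨E, h1, le_trans ?_ h2, h4⟩
    have h5 : 0 ≤ (n : ℝ) ^ (3 - saving d) := by positivity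
    nlinarith
  by_cases h2 : d = 2
  · subst h2
    have hs : saving 2 = 1 / 2 := by simp [saving]
    apply fin (3 / 256) le_rfl
    · rw [hs]; norm_num
    · rw [hs]; norm_num
    · rw [hs]; exact graph22
  by_cases h4 : d ≤ 4
  · have hs : saving d = 1 / 3 := by simp [saving, h2, h4]
    apply fin (3 / 256) le_rfl
    · rw [hs]; norm_num
    · rw [hs]; norm_num
    · rw [hs]
      intro m hm
      obtain ⟨Γ, h1, h3⟩ := graph33 m hm
      exact ⟨Γ, fun h => h1 (h.mono (by omega)), h3⟩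
  · have hs : saving d = 2 / ((d : ℝ) + 1) := by simp [saving, h2, h4]
    have hd0 : (2 : ℝ) ≤ (d : ℝ) := by exact_mod_cast hd
    apply fin (1 / 6) (by norm_num)
    · rw [hs]; positivity
    · rw [hs, div_le_iff₀ (by positivity)]; linarith
    · rw [hs]; exact graph_random d hd

end Pool.Agent.Results.MP_3d9d8b_co.LowerBound
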